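import Pool.Agent.Lib.MP_96bc49_an.Main

namespace Pool.Agent.Results.MP_96bc49_an.AllBoundaryPoints

open Pool.Agent.Lib.MP_96bc49_an

/-- Burns–Krantz rigidity holds at every boundary point of the symmetrized polydisc, in every
dimension; the points of `π_n (𝕋ⁿ)` (the Shilov boundary) are among them. -/
theorem result : ∀ n : ℕ, 1 ≤ n →
    (∀ p ∈ frontier (symmPolydisc n), BurnsKrantzRigid (symmPolydisc n) p) ∧
      ∀ l : Fin n → ℂ, (∀ i, ‖l i‖ = 1) → symmMap n l ∈ frontier (symmPolydisc n) :=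
  fun n hn => ⟨fun _ hp => rigid_of_mem_frontier hp, fun _ hl => torus_mem_frontier n hn hl⟩

end Pool.Agent.Results.MP_96bc49_an.AllBoundaryPoints
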